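import Mathlib
import Pool.Agent.Y920.EP.Base

set_option autoImplicit false

/-! The number of classes that are not rigid. -/

namespace Pool.Agent.Y345.EP

open Pool.Agent.Y920.EP

/-- the numerical estimate -/
lemma num_est (p N : ℕ) (hp : 3 ≤ p) (hN : 2 ≤ N) :
    (2 * (9 * p ^ 2 * N ^ 2) + 1) * (N ^ 3 + N + 2) ≤ 38 * p ^ 2 * N ^ 5 := by
  have h1 : N ^ 3 + N + 2 ≤ 2 * N ^ 3 := by
    have : 4 * N ≤ N ^ 3 := by
      have : 2 ^ 2 ≤ N ^ 2 := Nat.pow_le_pow_left hN 2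
      calc 4 * N ≤ N ^ 2 * N := Nat.mul_le_mul_right N this
        _ = N ^ 3 := by ring
    omega
  have h2 : 2 * (9 * p ^ 2 * N ^ 2) + 1 ≤ 19 * p ^ 2 * N ^ 2 := by
    have : 1 ≤ p ^ 2 * N ^ 2 := by
      have h3 : 1 ≤ p ^ 2 := Nat.one_le_pow _ _ (by omega)
      have h4 : 1 ≤ N ^ 2 := Nat.one_le_pow _ _ (by omega)
      exact Nat.one_le_iff_ne_zero.2 (Nat.mul_ne_zero (by omega) (by omega))
    nlinarith
  calc (2 * (9 * p ^ 2 * N ^ 2) + 1) * (N ^ 3 + N + 2)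
      ≤ (19 * p ^ 2 * N ^ 2) * (2 * N ^ 3) := Nat.mul_le_mul h2 h1
    _ = 38 * p ^ 2 * N ^ 5 := by ring

theorem t_CNT : Pool.Agent.Y920.EP.S_CNT := by
  classical
  intro hL1 hCALC hRU hDIFF hSU hPIG hFIB hPICK F _ p hp hp2 ζ hζ A _ φ Nn N hs hpow
  have hM : HL φ (N ^ 2) := hL1 F A φ Nn N hs
  have p3 : 3 ≤ p := by
    have := hp.two_le
    omega
  have key : ∀ X : Finset A, (∀ a ∈ X, a ∈ NR φ) → X.card ≤ 38 * p ^ 2 * N ^ 5 := by
    intro X hX
    rcases X.eq_empty_or_nonempty with rfl | ⟨a0, ha0⟩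
    · simp
    have ha0' := hX a0 ha0
    have hN2 : 2 ≤ N := by
      have h1 := hs.fin a0 ha0'.1
      have h2 : ({1, a0} : Set A) ⊆ (Nn a0 : Set A) := by
        intro x hx
        rcases hx with rfl | hx
        · exact one_mem (Nn a0)
        · rw [Set.mem_singleton_iff.1 hx]
          exact self_mem hs a0
      have h3 := Set.ncard_le_ncard h2 h1.1
      rw [Set.ncard_pair (Ne.symm ha0'.1)] at h3
      exact h3.trans h1.2
    by_cases hpN : X.card ≤ p * N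
    · refine hpN.trans ?_
      have h1 : 1 ≤ 38 * p * N ^ 4 := by
        have : 1 ≤ N ^ 4 := Nat.one_le_pow _ _ (by omega)
        exact Nat.one_le_iff_ne_zero.2 (Nat.mul_ne_zero (by omega) (by omega))
      calc p * N = p * N * 1 := (mul_one _).symm
        _ ≤ p * N * (38 * p * N ^ 4) := Nat.mul_le_mul_left _ h1
        _ = 38 * p ^ 2 * N ^ 5 := by ring
    rw [not_le] at hpN
    have hrep : ∀ a : A, ∃ r : Fˣ, a ∈ NR φ → φ r = a ∧ En φ (N ^ 2) r := by
      intro a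
      by_cases ha : a ∈ NR φ
      · obtain ⟨ha1, r, s, hr, hrs, hs1, hs2⟩ := ha
        refine ⟨r, fun _ => ⟨hr, ?_⟩⟩
        exact (hCALC F A φ (N ^ 2) hs.neg hM).2.2 r s hrs (by rw [hr]; exact ha1) hs1
          (by rw [hr]; exact hs2)
      · exact ⟨1, fun h => absurd h ha⟩
    choose r hr using hrep
    obtain ⟨f, hf, hfne⟩ := hPICK A (φ ζ) p N hp.one_le
      (by rw [← map_pow, hζ.pow_eq_one, map_one]) X hpN
    have hy : ∀ i, φ (r (f i)) = f i ∧ En φ (N ^ 2) (r (f i)) := fun i =>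
      hr _ (hX _ (hf i))
    have hd : ∀ i j : Fin N, ∃ d : Fˣ, i ≠ j →
        ((d : F) = (r (f i) : F) ^ p - (r (f j) : F) ^ p ∧
          En φ (p * (6 * p + 4) * N ^ 2) d) := by
      intro i j
      by_cases hij : i = j
      · exact ⟨1, fun h => absurd hij h⟩
      · obtain ⟨d, hd1, hd2⟩ := hDIFF hCALC hRU F p hp hp2 ζ hζ A φ (N ^ 2) hs.neg hM (r (f i))
          (r (f j)) (by rw [(hy i).1]; exact (hX _ (hf i)).1) (hy i).2 (hy j).2 (by
            intro k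
            rw [map_mul, map_pow, (hy i).1, (hy j).1]
            exact hfne i j hij k)
        exact ⟨d, fun _ => ⟨hd1, hd2⟩⟩
    choose d hd using hd
    have hw : ∀ a : A, ∃ w : Fˣ, a ∈ X → En φ (9 * p ^ 2 * N ^ 2) w ∧ Ml φ w 1 ∧
      (φ w = a ∨ φ w = a⁻¹ ∨
        (∃ i j, i ≠ j ∧ ∃ n ∈ Nn a, n ≠ 1 ∧ φ w = φ (d i j) * n) ∨
        (φ w ∈ Nn a ∧ φ w ≠ 1)) := by
      intro a
      by_cases ha : a ∈ X
      · have ha' := hr a (hX a ha)
        obtain ⟨w, hw1, hw2, hw3⟩ := hPIG hCALC F p p3 A φ Nn N (N ^ 2) hs hM hpow (r a)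
          (by rw [ha'.1]; exact (hX a ha).1) ha'.2 (fun i => r (f i)) (fun i => (hy i).2) d hd
        rw [ha'.1] at hw3
        exact ⟨w, fun _ => ⟨hw1, hw2, hw3⟩⟩
      · exact ⟨1, fun h => absurd h ha⟩
    choose w hw using hw
    have hcard : (X.image fun a => φ (w a)).card ≤ 2 * (9 * p ^ 2 * N ^ 2) + 1 := by
      apply hSU F A φ (9 * p ^ 2 * N ^ 2)
      intro g hg
      obtain ⟨a, ha, rfl⟩ := Finset.mem_image.1 hg
      exact ⟨w a, rfl, (hw a ha).1, (hw a ha).2.1⟩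
    have hD : ((Finset.univ : Finset (Fin N × Fin N)).image
        fun ij => φ (d ij.1 ij.2)).card ≤ N ^ 2 := by
      refine Finset.card_image_le.trans ?_
      rw [Finset.card_univ, Fintype.card_prod, Fintype.card_fin, sq]
    refine (hFIB A Nn N hs.symm (self_mem hs) hs.fin X _ (fun a => φ (w a)) _ hD hcard ?_).trans
      (num_est p N p3 hN2)
    intro a ha
    refine ⟨(hX a ha).1, ?_⟩
    rcases (hw a ha).2.2 with h | h | ⟨i, j, hij, n, hn, hn1, h⟩ | h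
    · exact Or.inl h
    · exact Or.inr (Or.inl h)
    · exact Or.inr (Or.inr (Or.inl ⟨φ (d i j), Finset.mem_image.2 ⟨(i, j), Finset.mem_univ _, rfl⟩,
        n, hn, hn1, h⟩))
    · exact Or.inr (Or.inr (Or.inr h))
  have hfin : (NR φ).Finite := by
    by_contra hinf
    obtain ⟨X, hX, hc⟩ := Set.Infinite.exists_subset_card_eq hinf (38 * p ^ 2 * N ^ 5 + 1)
    have := key X (fun a ha => hX ha)
    omega
  refine ⟨hfin, ?_⟩
  rw [Set.ncard_eq_toFinset_card _ hfin]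
  exact key _ fun a ha => (Set.Finite.mem_toFinset hfin).1 ha

end Pool.Agent.Y345.EP
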